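import Mathlib
import Pool.Agent.Run7.h337.NBMain

/-!
Natural boundaries on affine discs for functions of class `A^∞` on the unit ball of `ℂ^n`.
-/

open Metric Set

namespace Pool.Agent.Results.MP_ca9574_an.BallNB

/-- The ball algebra `A(B)`: `f` is continuous on the closed unit ball of `ℂ^n` and holomorphic
in the open unit ball. -/
def MemBallAlgebra {n : ℕ} (f : EuclideanSpace ℂ (Fin n) → ℂ) : Prop :=
  ContinuousOn f (closedBall 0 1) ∧ DifferentiableOn ℂ f (ball 0 1)

/-- The class `A^∞(B)`: `f` belongs to `A(B)` and, for every order `k`, the `k`-th complex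
derivative of `f` (the tensor of all partial derivatives of order `k`) on the open ball extends
continuously to the closed ball. -/
def MemAInfty {n : ℕ} (f : EuclideanSpace ℂ (Fin n) → ℂ) : Prop :=
  MemBallAlgebra f ∧
    ∀ k : ℕ, ∃ G : EuclideanSpace ℂ (Fin n) →
        ContinuousMultilinearMap ℂ (fun _ : Fin k => EuclideanSpace ℂ (Fin n)) ℂ,
      ContinuousOn G (closedBall 0 1) ∧ ∀ z ∈ ball 0 1, G z = iteratedFDeriv ℂ k f z

/-- The unit circle is a natural boundary of `g` (regarded as a function on the open unit disc):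
for no point `τ` of the circle is there an open disc `D` containing `τ` and a holomorphic function
`h` on `D` that agrees with `g` on the part of `D` in the open unit disc. -/
def HasNaturalBoundary (g : ℂ → ℂ) : Prop :=
  ∀ τ : ℂ, ‖τ‖ = 1 → ¬ ∃ (c : ℂ) (r : ℝ) (h : ℂ → ℂ), τ ∈ ball c r ∧
    DifferentiableOn ℂ h (ball c r) ∧ ∀ w ∈ ball c r, ‖w‖ < 1 → h w = g w

/-- Property (NB): for every nonconstant complex affine map `w ↦ a + w b` that maps the unit
circle into the unit sphere, the composition of `f` with it has the unit circle as natural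
boundary. -/
def PropertyNB {n : ℕ} (f : EuclideanSpace ℂ (Fin n) → ℂ) : Prop :=
  ∀ a b : EuclideanSpace ℂ (Fin n), b ≠ 0 → (∀ w : ℂ, ‖w‖ = 1 → ‖a + w • b‖ = 1) →
    HasNaturalBoundary (fun w => f (a + w • b))

/-- An affine disc with boundary in the sphere: `‖a + w b‖² = 1 + (|w|² - 1) ‖b‖²`. -/
theorem norm_sq_affine {n : ℕ} {a b : EuclideanSpace ℂ (Fin n)}
    (h : ∀ w : ℂ, ‖w‖ = 1 → ‖a + w • b‖ = 1) (w : ℂ) :
    ‖a + w • b‖ ^ 2 = 1 + (‖w‖ ^ 2 - 1) * ‖b‖ ^ 2 := by
  have key : ∀ w : ℂ, ‖a + w • b‖ ^ 2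
      = ‖a‖ ^ 2 + 2 * (w * inner ℂ a b).re + ‖w‖ ^ 2 * ‖b‖ ^ 2 := by
    intro w
    rw [@norm_add_sq ℂ, inner_smul_right, norm_smul, mul_pow]
    rfl
  have e1 := key 1
  have e2 := key (-1)
  have e3 := key Complex.I
  have e4 := key (-Complex.I)
  rw [h _ (by simp)] at e1 e2 e3 e4
  simp only [one_mul, neg_mul, Complex.neg_re, norm_one, norm_neg, Complex.norm_I,
    Complex.mul_re, Complex.I_re, Complex.I_im, zero_mul, zero_sub, neg_neg] at e1 e2 e3 e4
  have hre : (inner ℂ a b : ℂ).re = 0 := by linarith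
  have him : (inner ℂ a b : ℂ).im = 0 := by linarith
  have hin : (inner ℂ a b : ℂ) = 0 := Complex.ext hre him
  have hab : ‖a‖ ^ 2 + ‖b‖ ^ 2 = 1 := by
    rw [hre] at e1; linarith
  rw [key w, hin]
  simp only [mul_zero, Complex.zero_re]
  linarith

/-- For every `n > 1` there is a function of class `A^∞(B)`, in particular in the ball algebra
`A(B)`, with property (NB). -/
theorem result (n : ℕ) (_hn : 1 < n) :
    ∃ f : EuclideanSpace ℂ (Fin n) → ℂ, MemAInfty f ∧ PropertyNB f := by
  obtain ⟨N, hN1, hN2, hN3⟩ := Run7.h337.exists_exponents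
  obtain ⟨L, hL, hdet⟩ := Run7.h337.exists_functionals (E := EuclideanSpace ℂ (Fin n))
  refine ⟨Run7.h337.fsum N L, ⟨⟨?_, Run7.h337.differentiableOn_fsum hN1 L hL⟩, fun k => ?_⟩, ?_⟩
  · unfold Run7.h337.fsum
    refine continuousOn_tsum (fun j => ?_) (Run7.h337.summable_wt_pow hN1 0) (fun j z hz => ?_)
    · exact (Run7.h337.term_contDiff N L j (N := 0)).continuous.continuousOn
    · rw [mem_closedBall_zero_iff] at hz
      refine (Run7.h337.norm_term_le N L hL j z).trans ?_
      rw [pow_zero]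
      gcongr
      exact pow_le_one₀ (norm_nonneg _) hz
  · exact ⟨_, Run7.h337.continuousOn_tsum_iteratedFDeriv hN1 L hL k,
      fun z hz => (Run7.h337.iteratedFDeriv_fsum hN1 L hL k z hz).symm⟩
  · intro a b hb hab τ hτ hex
    obtain ⟨c, r, h, hτc, hh, hag⟩ := hex
    have hnorm := norm_sq_affine hab
    have hb2 : 0 < ‖b‖ ^ 2 := by positivity
    have hnear : ∀ ε > 0, ∃ s : ℝ, 0 < s ∧ s < ε ∧ s < 1 ∧
        ((1 + s : ℝ) : ℂ) * τ ∈ ball c r ∧ ((1 - s : ℝ) : ℂ) * τ ∈ ball c r := by
      intro ε hε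
      obtain ⟨δ, hδ, hsub⟩ := Metric.isOpen_iff.1 isOpen_ball τ hτc
      obtain ⟨s, hs0, hs⟩ := exists_between (lt_min hδ (lt_min hε one_pos))
      have hs1 : s < δ := hs.trans_le (min_le_left _ _)
      have hs2 : s < ε := hs.trans_le ((min_le_right _ _).trans (min_le_left _ _))
      have hs3 : s < 1 := hs.trans_le ((min_le_right _ _).trans (min_le_right _ _))
      refine ⟨s, hs0, hs2, hs3, hsub ?_, hsub ?_⟩
      · rw [mem_ball, dist_eq_norm]
        have : ((1 + s : ℝ) : ℂ) * τ - τ = (s : ℂ) * τ := by push_cast; ring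
        rw [this, norm_mul, hτ, mul_one, Complex.norm_real, Real.norm_of_nonneg hs0.le]
        exact hs1
      · rw [mem_ball, dist_eq_norm]
        have : ((1 - s : ℝ) : ℂ) * τ - τ = -((s : ℂ) * τ) := by push_cast; ring
        rw [this, norm_neg, norm_mul, hτ, mul_one, Complex.norm_real, Real.norm_of_nonneg hs0.le]
        exact hs1
    obtain ⟨s, hs0, -, hs1, hout, hin⟩ := hnear 1 one_pos
    have hΦ : Differentiable ℂ (fun w : ℂ => a + w • b) := by fun_prop
    have hin1 : ‖((1 - s : ℝ) : ℂ) * τ‖ < 1 := by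
      rw [norm_mul, hτ, mul_one, Complex.norm_real, Real.norm_of_nonneg (by linarith)]
      linarith
    have hout1 : ‖((1 + s : ℝ) : ℂ) * τ‖ = 1 + s := by
      rw [norm_mul, hτ, mul_one, Complex.norm_real, Real.norm_of_nonneg (by linarith)]
    have hconcl := Run7.h337.noncontinuable hN1 hN2 hN3 L hL hdet (W := ball c r)
      (V := ball c r ∩ ball 0 1) isOpen_ball (convex_ball c r).isPreconnected
      (Φ := fun w : ℂ => a + w • b) hΦ.differentiableOn hh (isOpen_ball.inter isOpen_ball)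
      ⟨_, hin, by simpa using hin1⟩ inter_subset_left (fun w hw => by
        have hw1 : ‖w‖ < 1 := by simpa using hw.2
        have h1 := hnorm w
        have h2 : ‖w‖ ^ 2 < 1 := by
          have := norm_nonneg w
          nlinarith
        have h3 : ‖a + w • b‖ ^ 2 < 1 := by rw [h1]; nlinarith
        by_contra hcon
        push Not at hcon
        nlinarith) (fun w hw => hag w hw.1 (by simpa using hw.2)) _ hout
    have h1 := hnorm (((1 + s : ℝ) : ℂ) * τ)
    rw [hout1] at h1
    have h2 : ‖a + (((1 + s : ℝ) : ℂ) * τ) • b‖ ^ 2 ≤ 1 := by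
      have := norm_nonneg (a + (((1 + s : ℝ) : ℂ) * τ) • b)
      exact pow_le_one₀ this hconcl
    rw [h1] at h2
    have h3 : 0 < (1 + s) ^ 2 - 1 := by nlinarith
    have h4 := mul_pos h3 hb2
    linarith

end Pool.Agent.Results.MP_ca9574_an.BallNB
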